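import Mathlib.Topology.Sheaves.Presheaf
import Mathlib.Tactic.ENatToNat
import Mathlib.Tactic.Monotonicity.Lemmas
import Mathlib.Data.Int.Star
import Mathlib.Algebra.Order.Ring.Star
import Mathlib.Algebra.Order.Star.Real
import Mathlib.MeasureTheory.Integral.IntervalIntegral.Basic
import Mathlib.Combinatorics.Enumerative.DoubleCounting
import Mathlib.Data.Int.CardIntervalMod
import Mathlib.RingTheory.PiTensorProduct
import Mathlib.RingTheory.WittVector.IsPoly
import Mathlib.Tactic.Polynomial.Basic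
import Mathlib.Tactic.ReduceModChar

-- ======== part 0: formerly Pool.Agent.MP_6bff71_co.Asym
section MrgPart0

/-!
Quadratic asymptotics, with a linear error term, for counting pairs `(a, d)` whose progression
`a + i d` visits prescribed blocks of `[n]` and which lie in prescribed residue classes.
-/

open Finset

namespace Pool.Agent.MP_6bff71_co

/-- `f n = δ n ^ 2 + O(n)` for some `δ`. -/
def Asym (f : ℕ → ℝ) : Prop := ∃ δ C : ℝ, ∀ n : ℕ, |f n - δ * (n : ℝ) ^ 2| ≤ C * n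

lemma Asym.zero : Asym (fun _ => 0) := ⟨0, 0, by simp⟩

lemma Asym.add {f g : ℕ → ℝ} (hf : Asym f) (hg : Asym g) : Asym (fun n => f n + g n) := by
  obtain ⟨δ, C, h⟩ := hf
  obtain ⟨δ', C', h'⟩ := hg
  refine ⟨δ + δ', C + C', fun n => ?_⟩
  have h1 := h n
  have h2 := h' n
  calc |f n + g n - (δ + δ') * (n : ℝ) ^ 2|
      = |(f n - δ * (n : ℝ) ^ 2) + (g n - δ' * (n : ℝ) ^ 2)| := by ring_nf
    _ ≤ |f n - δ * (n : ℝ) ^ 2| + |g n - δ' * (n : ℝ) ^ 2| := abs_add_le _ _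
    _ ≤ (C + C') * n := by linarith

lemma Asym.sum {ι : Type*} (s : Finset ι) (f : ι → ℕ → ℝ) (h : ∀ i ∈ s, Asym (f i)) :
    Asym (fun n => ∑ i ∈ s, f i n) := by
  classical
  induction s using Finset.induction_on with
  | empty => simpa using Asym.zero
  | insert a s ha ih =>
    simp only [Finset.sum_insert ha]
    exact (h a (by simp)).add (ih fun i hi => h i (by simp [hi]))

/-- Counting a residue class in a real interval. -/
lemma count_interval (p : ℕ) (hp : 0 < p) (α n : ℕ) (L U : ℝ) (hL : 0 ≤ L) (hU : U ≤ n) :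
    |(((Icc 1 n).filter (fun a : ℕ => L < a ∧ (a : ℝ) ≤ U ∧ a ≡ α [MOD p])).card : ℝ)
      - max (U - L) 0 / p| ≤ 2 := by
  have hp' : (1 : ℝ) ≤ p := by exact_mod_cast hp
  have hp0 : (0 : ℝ) < p := by linarith
  by_cases hUL : U ≤ L
  · have : (Icc 1 n).filter (fun a : ℕ => L < a ∧ (a : ℝ) ≤ U ∧ a ≡ α [MOD p]) = ∅ := by
      apply Finset.filter_eq_empty_iff.mpr
      rintro a - ⟨h1, h2, -⟩
      linarith
    rw [this, max_eq_right (by linarith)]
    simp
  push Not at hUL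
  have hU0 : 0 ≤ U := by linarith
  have hset : (Icc 1 n).filter (fun a : ℕ => L < a ∧ (a : ℝ) ≤ U ∧ a ≡ α [MOD p])
      = (Ioc ⌊L⌋₊ ⌊U⌋₊).filter (fun a : ℕ => a ≡ α [MOD p]) := by
    ext a
    simp only [mem_filter, mem_Icc, mem_Ioc, Nat.floor_lt hL, Nat.le_floor_iff hU0]
    constructor
    · rintro ⟨-, h1, h2, h3⟩
      exact ⟨⟨h1, h2⟩, h3⟩
    · rintro ⟨⟨h1, h2⟩, h3⟩
      refine ⟨⟨?_, ?_⟩, h1, h2, h3⟩
      · have : (0 : ℝ) < a := by linarith
        exact_mod_cast this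
      · have : (a : ℝ) ≤ n := by linarith
        exact_mod_cast this
  rw [hset, max_eq_left (by linarith)]
  have hc := Nat.Ioc_filter_modEq_card ⌊L⌋₊ ⌊U⌋₊ hp α
  have hle : ⌊L⌋₊ ≤ ⌊U⌋₊ := Nat.floor_le_floor hUL.le
  have hpq : (0 : ℚ) < p := by exact_mod_cast hp
  have hmono : ⌊((⌊L⌋₊ : ℚ) - α) / (p : ℚ)⌋ ≤ ⌊((⌊U⌋₊ : ℚ) - α) / (p : ℚ)⌋ := by
    apply Int.floor_le_floor
    gcongr
  rw [max_eq_left (by linarith)] at hc
  have hc' : (((Ioc ⌊L⌋₊ ⌊U⌋₊).filter (fun a : ℕ => a ≡ α [MOD p])).card : ℝ)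
      = ((⌊((⌊U⌋₊ : ℚ) - α) / (p : ℚ)⌋ : ℤ) : ℝ) - ((⌊((⌊L⌋₊ : ℚ) - α) / (p : ℚ)⌋ : ℤ) : ℝ) := by
    exact_mod_cast congrArg (fun z : ℤ => (z : ℝ)) hc
  rw [hc']
  have a1 : ((⌊((⌊U⌋₊ : ℚ) - α) / (p : ℚ)⌋ : ℤ) : ℝ) ≤ ((⌊U⌋₊ : ℝ) - α) / p := by
    exact_mod_cast Int.floor_le (((⌊U⌋₊ : ℚ) - α) / (p : ℚ))
  have a2 : ((⌊U⌋₊ : ℝ) - α) / p < ((⌊((⌊U⌋₊ : ℚ) - α) / (p : ℚ)⌋ : ℤ) : ℝ) + 1 := by
    exact_mod_cast Int.lt_floor_add_one (((⌊U⌋₊ : ℚ) - α) / (p : ℚ))
  have a3 : ((⌊((⌊L⌋₊ : ℚ) - α) / (p : ℚ)⌋ : ℤ) : ℝ) ≤ ((⌊L⌋₊ : ℝ) - α) / p := by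
    exact_mod_cast Int.floor_le (((⌊L⌋₊ : ℚ) - α) / (p : ℚ))
  have a4 : ((⌊L⌋₊ : ℝ) - α) / p < ((⌊((⌊L⌋₊ : ℚ) - α) / (p : ℚ)⌋ : ℤ) : ℝ) + 1 := by
    exact_mod_cast Int.lt_floor_add_one (((⌊L⌋₊ : ℚ) - α) / (p : ℚ))
  have b1 : (⌊U⌋₊ : ℝ) ≤ U := Nat.floor_le hU0
  have b2 : U < (⌊U⌋₊ : ℝ) + 1 := Nat.lt_floor_add_one U
  have b3 : (⌊L⌋₊ : ℝ) ≤ L := Nat.floor_le hL
  have b4 : L < (⌊L⌋₊ : ℝ) + 1 := Nat.lt_floor_add_one L
  have e : (U - L) / p = ((⌊U⌋₊ : ℝ) - α) / p - ((⌊L⌋₊ : ℝ) - α) / p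
      + ((U - ⌊U⌋₊) - (L - ⌊L⌋₊)) / p := by
    field_simp
    ring
  have c1 : ((U - ⌊U⌋₊) - (L - ⌊L⌋₊)) / p ≤ 1 := by
    rw [div_le_iff₀ hp0]; linarith
  have c2 : -1 ≤ ((U - ⌊U⌋₊) - (L - ⌊L⌋₊)) / p := by
    rw [le_div_iff₀ hp0]; linarith
  rw [e, abs_le]
  constructor <;> linarith

/-- Summation by parts bound. -/
lemma abel_bound (u ψ : ℕ → ℝ) (D K : ℝ) (hu : ∀ t, |∑ d ∈ range t, u d| ≤ D)
    (hψ : ∀ d, |ψ (d + 1) - ψ d| ≤ K) (t : ℕ) :
    |∑ d ∈ range t, ψ d * u d - ψ t * ∑ d ∈ range t, u d| ≤ D * K * t := by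
  induction t with
  | zero => simp
  | succ t ih =>
    have e : ∑ d ∈ range (t + 1), ψ d * u d - ψ (t + 1) * ∑ d ∈ range (t + 1), u d
        = (∑ d ∈ range t, ψ d * u d - ψ t * ∑ d ∈ range t, u d)
          - (ψ (t + 1) - ψ t) * ∑ d ∈ range (t + 1), u d := by
      simp only [Finset.sum_range_succ]
      ring
    rw [e]
    have h1 : |(ψ (t + 1) - ψ t) * ∑ d ∈ range (t + 1), u d| ≤ K * D := by
      rw [abs_mul]
      exact mul_le_mul (hψ t) (hu _) (abs_nonneg _) ((abs_nonneg _).trans (hψ t))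
    calc _ ≤ |∑ d ∈ range t, ψ d * u d - ψ t * ∑ d ∈ range t, u d|
          + |(ψ (t + 1) - ψ t) * ∑ d ∈ range (t + 1), u d| := abs_sub _ _
      _ ≤ D * K * t + K * D := add_le_add ih h1
      _ = D * K * ((t + 1 : ℕ) : ℝ) := by push_cast; ring

/-- Riemann sums of a Lipschitz function. -/
lemma riemann (φ : ℝ → ℝ) (K : ℝ) (hφ : ∀ y y', |φ y - φ y'| ≤ K * |y - y'|) (n : ℕ)
    (hn : 0 < n) :
    |∑ d ∈ range n, φ (((d + 1 : ℕ) : ℝ) / n) - n * ∫ y in (0 : ℝ)..1, φ y| ≤ K := by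
  have hn' : (0 : ℝ) < n := by exact_mod_cast hn
  have hK : 0 ≤ K := by
    have := hφ 1 0
    simp only [sub_zero, abs_one, mul_one] at this
    exact (abs_nonneg _).trans this
  have hcont : Continuous φ := by
    have : LipschitzWith ⟨K, hK⟩ φ := by
      apply LipschitzWith.of_dist_le_mul
      intro x y
      rw [Real.dist_eq, Real.dist_eq]
      exact hφ x y
    exact this.continuous
  have hsplit : ∫ y in (0 : ℝ)..1, φ y
      = ∑ d ∈ range n, ∫ y in ((d : ℝ) / n)..(((d + 1 : ℕ) : ℝ) / n), φ y := by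
    rw [intervalIntegral.sum_integral_adjacent_intervals (a := fun d : ℕ => (d : ℝ) / n)
      (fun _ _ => hcont.intervalIntegrable _ _)]
    simp [hn'.ne']
  rw [hsplit, Finset.mul_sum, ← Finset.sum_sub_distrib]
  have hterm : ∀ d ∈ range n, |φ (((d + 1 : ℕ) : ℝ) / n)
      - n * ∫ y in ((d : ℝ) / n)..(((d + 1 : ℕ) : ℝ) / n), φ y| ≤ K / n := by
    intro d _
    have e : φ (((d + 1 : ℕ) : ℝ) / n) - n * ∫ y in ((d : ℝ) / n)..(((d + 1 : ℕ) : ℝ) / n), φ y
        = n * ∫ y in ((d : ℝ) / n)..(((d + 1 : ℕ) : ℝ) / n),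
            (φ (((d + 1 : ℕ) : ℝ) / n) - φ y) := by
      rw [intervalIntegral.integral_sub (by simp) (hcont.intervalIntegrable _ _)]
      simp only [intervalIntegral.integral_const, smul_eq_mul]
      push_cast
      field_simp
      ring
    rw [e, abs_mul, abs_of_pos hn']
    have hb := intervalIntegral.norm_integral_le_of_norm_le_const
      (a := (d : ℝ) / n) (b := ((d + 1 : ℕ) : ℝ) / n) (C := K / n)
      (f := fun y => φ (((d + 1 : ℕ) : ℝ) / n) - φ y) (by
        intro x hx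
        have hle : (d : ℝ) / n ≤ ((d + 1 : ℕ) : ℝ) / n := by
          gcongr; linarith
        rw [Set.uIoc_of_le hle] at hx
        obtain ⟨h1, h2⟩ := hx
        rw [Real.norm_eq_abs]
        refine (hφ _ _).trans ?_
        rw [abs_of_nonneg (by linarith)]
        have : ((d + 1 : ℕ) : ℝ) / n - x ≤ 1 / n := by
          have : ((d + 1 : ℕ) : ℝ) / n = (d : ℝ) / n + 1 / n := by push_cast; ring
          linarith
        calc K * (((d + 1 : ℕ) : ℝ) / n - x) ≤ K * (1 / n) := by gcongr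
          _ = K / n := by ring)
    rw [Real.norm_eq_abs] at hb
    have e2 : |((d + 1 : ℕ) : ℝ) / n - (d : ℝ) / n| = 1 / n := by
      have : ((d + 1 : ℕ) : ℝ) / n - (d : ℝ) / n = 1 / n := by push_cast; ring
      rw [this, abs_of_pos (by positivity)]
    rw [e2] at hb
    calc (n : ℝ) * |∫ y in ((d : ℝ) / n)..(((d + 1 : ℕ) : ℝ) / n),
            (φ (((d + 1 : ℕ) : ℝ) / n) - φ y)| ≤ n * (K / n * (1 / n)) := by gcongr
      _ = K / n := by field_simp
  calc _ ≤ ∑ d ∈ range n, |φ (((d + 1 : ℕ) : ℝ) / n)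
      - n * ∫ y in ((d : ℝ) / n)..(((d + 1 : ℕ) : ℝ) / n), φ y| := Finset.abs_sum_le_sum_abs _ _
    _ ≤ ∑ d ∈ range n, K / n := Finset.sum_le_sum hterm
    _ = K := by simp; field_simp

/-- Riemann sums of a bounded Lipschitz function along a residue class. -/
lemma riemann_mod (φ : ℝ → ℝ) (K M : ℝ) (hφ : ∀ y y', |φ y - φ y'| ≤ K * |y - y'|)
    (hM : ∀ y, |φ y| ≤ M) (p : ℕ) (hp : 0 < p) (β n : ℕ) (hn : 0 < n) :
    |∑ d ∈ (Icc 1 n).filter (fun d => d ≡ β [MOD p]), φ ((d : ℝ) / n)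
      - (n * ∫ y in (0 : ℝ)..1, φ y) / p| ≤ 3 * K + 2 * M := by
  have hn' : (0 : ℝ) < n := by exact_mod_cast hn
  have hp' : (1 : ℝ) ≤ p := by exact_mod_cast hp
  have hp0 : (0 : ℝ) < p := by linarith
  have hK : 0 ≤ K := by
    have := hφ 1 0
    simp only [sub_zero, abs_one, mul_one] at this
    exact (abs_nonneg _).trans this
  set u : ℕ → ℝ := fun d => (if (d + 1) ≡ β [MOD p] then 1 else 0) - 1 / p with hu
  set ψ : ℕ → ℝ := fun d => φ (((d + 1 : ℕ) : ℝ) / n) with hψ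
  have shift : ∀ (t : ℕ) (F : ℕ → ℝ), ∑ d ∈ Icc 1 t, F d = ∑ d ∈ range t, F (d + 1) := by
    intro t F
    rw [Finset.range_eq_Ico, Finset.sum_Ico_add' F 0 t 1]
    rfl
  have hpart : ∀ t, |∑ d ∈ range t, u d| ≤ 2 := by
    intro t
    have h := count_interval p hp β t 0 t le_rfl le_rfl
    have e1 : (Icc 1 t).filter (fun a : ℕ => (0 : ℝ) < a ∧ (a : ℝ) ≤ t ∧ a ≡ β [MOD p])
        = (Icc 1 t).filter (fun a : ℕ => a ≡ β [MOD p]) := by
      apply Finset.filter_congr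
      intro a ha
      rw [mem_Icc] at ha
      have h1 : (0 : ℝ) < a := by exact_mod_cast ha.1
      have h2 : (a : ℝ) ≤ t := by exact_mod_cast ha.2
      simp [h1, h2]
    rw [e1, sub_zero, max_eq_left (by positivity), Finset.card_filter] at h
    push_cast at h
    rw [shift] at h
    simp only [hu, Finset.sum_sub_distrib, Finset.sum_const, card_range, nsmul_eq_mul]
    convert h using 3
    ring
  have hlip : ∀ d, |ψ (d + 1) - ψ d| ≤ K / n := by
    intro d
    refine (hφ _ _).trans ?_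
    have : ((d + 1 + 1 : ℕ) : ℝ) / n - ((d + 1 : ℕ) : ℝ) / n = 1 / n := by push_cast; ring
    rw [this, abs_of_pos (by positivity)]
    exact le_of_eq (by ring)
  have hab := abel_bound u ψ 2 (K / n) hpart hlip n
  have hR := riemann φ K hφ n hn
  have e3 : 2 * (K / n) * n = 2 * K := by field_simp
  rw [e3] at hab
  have h4 : |ψ n * ∑ d ∈ range n, u d| ≤ M * 2 := by
    rw [abs_mul]
    exact mul_le_mul (hM _) (hpart n) (abs_nonneg _) ((abs_nonneg _).trans (hM 0))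
  have e5 : ∑ d ∈ (Icc 1 n).filter (fun d => d ≡ β [MOD p]), φ ((d : ℝ) / n)
      = ∑ d ∈ range n, ψ d * u d + (∑ d ∈ range n, ψ d) / p := by
    rw [Finset.sum_filter, shift, Finset.sum_div, ← Finset.sum_add_distrib]
    apply Finset.sum_congr rfl
    intro d _
    simp only [hu, hψ]
    split_ifs <;> ring
  rw [e5]
  have h6 : |(∑ d ∈ range n, ψ d) / p - (n * ∫ y in (0 : ℝ)..1, φ y) / p| ≤ K := by
    rw [← sub_div, abs_div, abs_of_pos hp0, div_le_iff₀ hp0]
    refine hR.trans ?_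
    nlinarith
  rw [abs_le] at *
  constructor <;> linarith [hab.1, hab.2, h4.1, h4.2, h6.1, h6.2]

/-- The pairs `(a, d)` with `a, d ≥ 1` and `a + (k - 1) d ≤ n`. -/
def AP (k n : ℕ) : Finset (ℕ × ℕ) :=
  (Icc 1 n ×ˢ Icc 1 n).filter (fun q => q.1 + (k - 1) * q.2 ≤ n)

/-- Index of the block of `x ∈ [n]` when `[n]` is cut into `N` equal blocks. -/
def blk (N n x : ℕ) : ℕ := (N * x - 1) / n

lemma blk_eq_iff {N n x b : ℕ} (hN : 0 < N) (hn : 0 < n) (hx : 1 ≤ x) :
    blk N n x = b ↔ b * n < N * x ∧ N * x ≤ (b + 1) * n := by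
  have h1 : 1 ≤ N * x := Nat.mul_pos hN hx
  unfold blk
  rw [Nat.div_eq_iff hn]
  have : (b + 1) * n = b * n + n := by ring
  omega

lemma blk_lt {N n x : ℕ} (hN : 0 < N) (hx : 1 ≤ x) (hxn : x ≤ n) : blk N n x < N := by
  have hn : 0 < n := by omega
  have h1 : 1 ≤ N * x := Nat.mul_pos hN hx
  have h2 : N * x ≤ N * n := Nat.mul_le_mul_left _ hxn
  unfold blk
  rw [Nat.div_lt_iff_lt_mul hn]
  omega

lemma asym_cnt (k N p : ℕ) (hk : 1 ≤ k) (hN : 0 < N) (hp : 0 < p) (b : Fin k → ℕ)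
    (hb : ∀ i, b i < N) (α β : ℕ) :
    Asym (fun n => (((AP k n).filter (fun q => (∀ i : Fin k, blk N n (q.1 + i * q.2) = b i) ∧
      q.1 ≡ α [MOD p] ∧ q.2 ≡ β [MOD p])).card : ℝ)) := by
  have hne : (univ : Finset (Fin k)).Nonempty := ⟨⟨0, hk⟩, mem_univ _⟩
  have hN' : (0 : ℝ) < N := by exact_mod_cast hN
  have hN1 : (1 : ℝ) ≤ N := by exact_mod_cast hN
  have hp' : (1 : ℝ) ≤ p := by exact_mod_cast hp
  have hp0 : (0 : ℝ) < p := by linarith
  set Lf : ℝ → ℝ := fun y => univ.sup' hne (fun i : Fin k => (b i : ℝ) / N - (i : ℕ) * y) with hLf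
  set Uf : ℝ → ℝ := fun y => univ.inf' hne (fun i : Fin k => ((b i : ℝ) + 1) / N - (i : ℕ) * y)
    with hUf
  have hik : ∀ i : Fin k, ((i : ℕ) : ℝ) ≤ k := fun i => by exact_mod_cast i.2.le
  have hmul : ∀ (i : Fin k) (y y' : ℝ), (i : ℕ) * y' - (i : ℕ) * y ≤ k * |y - y'| := by
    intro i y y'
    have h1 : y' - y ≤ |y - y'| := by rw [abs_sub_comm]; exact le_abs_self _
    have h2 : (0 : ℝ) ≤ (i : ℕ) := by positivity
    calc ((i : ℕ) : ℝ) * y' - (i : ℕ) * y = (i : ℕ) * (y' - y) := by ring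
      _ ≤ (i : ℕ) * |y - y'| := by gcongr
      _ ≤ k * |y - y'| := mul_le_mul_of_nonneg_right (hik i) (abs_nonneg _)
  have hL1 : ∀ y y', Lf y ≤ Lf y' + k * |y - y'| := by
    intro y y'
    apply Finset.sup'_le
    intro i _
    have h1 : (b i : ℝ) / N - (i : ℕ) * y' ≤ Lf y' :=
      Finset.le_sup' (fun i : Fin k => (b i : ℝ) / N - (i : ℕ) * y') (mem_univ i)
    have := hmul i y y'
    linarith
  have hU1 : ∀ y y', Uf y' ≤ Uf y + k * |y - y'| := by
    intro y y'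
    have : Uf y' - k * |y - y'| ≤ Uf y := by
      apply Finset.le_inf'
      intro i _
      have h1 : Uf y' ≤ ((b i : ℝ) + 1) / N - (i : ℕ) * y' :=
        Finset.inf'_le (fun i : Fin k => ((b i : ℝ) + 1) / N - (i : ℕ) * y') (mem_univ i)
      have := hmul i y' y
      rw [abs_sub_comm] at this
      linarith
    linarith
  have hL0 : ∀ y, (b ⟨0, hk⟩ : ℝ) / N ≤ Lf y := by
    intro y
    have := Finset.le_sup' (fun i : Fin k => (b i : ℝ) / N - (i : ℕ) * y) (mem_univ ⟨0, hk⟩)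
    refine le_trans (le_of_eq ?_) this
    simp
  have hU0 : ∀ y, Uf y ≤ ((b ⟨0, hk⟩ : ℝ) + 1) / N := by
    intro y
    have := Finset.inf'_le (fun i : Fin k => ((b i : ℝ) + 1) / N - (i : ℕ) * y)
      (mem_univ ⟨0, hk⟩)
    refine le_trans this (le_of_eq ?_)
    simp
  have hb1 : ∀ i, ((b i : ℝ) + 1) / N ≤ 1 := by
    intro i
    rw [div_le_one hN']
    exact_mod_cast hb i
  set φ : ℝ → ℝ := fun y => max (Uf y - Lf y) 0 with hφ
  have hφlip : ∀ y y', |φ y - φ y'| ≤ (2 * k) * |y - y'| := by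
    intro y y'
    refine (abs_max_sub_max_le_abs _ _ _).trans ?_
    have a1 := hL1 y y'
    have a2 := hL1 y' y
    have a3 := hU1 y y'
    have a4 := hU1 y' y
    rw [abs_sub_comm y' y] at a2 a4
    rw [abs_le]
    constructor <;> linarith
  have hφM : ∀ y, |φ y| ≤ 1 := by
    intro y
    rw [abs_of_nonneg (le_max_right _ _)]
    apply max_le _ zero_le_one
    have a1 := hL0 y
    have a2 := hU0 y
    have a3 := hb1 ⟨0, hk⟩
    have a4 : (0 : ℝ) ≤ (b ⟨0, hk⟩ : ℝ) / N := by positivity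
    linarith
  refine ⟨(∫ y in (0 : ℝ)..1, φ y) / p ^ 2, 2 + (3 * (2 * k) + 2 * 1), fun n => ?_⟩
  rcases Nat.eq_zero_or_pos n with rfl | hn
  · simp [AP]
  have hn' : (0 : ℝ) < n := by exact_mod_cast hn
  have hfib : (((AP k n).filter (fun q => (∀ i : Fin k, blk N n (q.1 + i * q.2) = b i) ∧
      q.1 ≡ α [MOD p] ∧ q.2 ≡ β [MOD p])).card : ℝ)
      = ∑ d ∈ (Icc 1 n).filter (fun d => d ≡ β [MOD p]),
          (((Icc 1 n).filter (fun a : ℕ => n * Lf ((d : ℝ) / n) < a ∧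
            (a : ℝ) ≤ n * Uf ((d : ℝ) / n) ∧ a ≡ α [MOD p])).card : ℝ) := by
    rw [AP, Finset.filter_filter, Finset.card_filter, Finset.sum_product_right,
      Finset.sum_filter]
    push_cast
    apply Finset.sum_congr rfl
    intro d hd
    rw [mem_Icc] at hd
    split_ifs with hdβ
    · rw [Finset.card_filter]
      push_cast
      apply Finset.sum_congr rfl
      intro a ha
      rw [mem_Icc] at ha
      have key : ∀ i : Fin k, blk N n (a + i * d) = b i ↔
          ((b i : ℝ) / N - (i : ℕ) * ((d : ℝ) / n) < a / n ∧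
            (a : ℝ) / n ≤ ((b i : ℝ) + 1) / N - (i : ℕ) * ((d : ℝ) / n)) := by
        intro i
        rw [blk_eq_iff hN hn (by omega)]
        have e1 : (b i : ℝ) / N - (i : ℕ) * ((d : ℝ) / n) < a / n ↔
            (b i : ℝ) * n < N * (a + (i : ℕ) * d) := by
          rw [sub_lt_iff_lt_add, ← mul_div_assoc, ← add_div, div_lt_div_iff₀ hN' hn',
            mul_comm _ (N : ℝ)]
        have e2 : (a : ℝ) / n ≤ ((b i : ℝ) + 1) / N - (i : ℕ) * ((d : ℝ) / n) ↔
            (N : ℝ) * (a + (i : ℕ) * d) ≤ ((b i : ℝ) + 1) * n := by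
          rw [le_sub_iff_add_le, ← mul_div_assoc, ← add_div, div_le_div_iff₀ hn' hN',
            mul_comm _ (N : ℝ)]
        rw [e1, e2]
        norm_cast
      have f1 : n * Lf ((d : ℝ) / n) < a ↔
          ∀ i : Fin k, (b i : ℝ) / N - (i : ℕ) * ((d : ℝ) / n) < a / n := by
        rw [← lt_div_iff₀' hn', hLf, Finset.sup'_lt_iff]
        simp
      have f2 : (a : ℝ) ≤ n * Uf ((d : ℝ) / n) ↔
          ∀ i : Fin k, (a : ℝ) / n ≤ ((b i : ℝ) + 1) / N - (i : ℕ) * ((d : ℝ) / n) := by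
        rw [← div_le_iff₀' hn', hUf, Finset.le_inf'_iff]
        simp
      apply if_congr _ rfl rfl
      rw [f1, f2]
      constructor
      · rintro ⟨-, h1, h2, -⟩
        exact ⟨fun i => ((key i).1 (h1 i)).1, fun i => ((key i).1 (h1 i)).2, h2⟩
      · rintro ⟨h1, h2, h3⟩
        have h4 : ∀ i : Fin k, blk N n (a + i * d) = b i := fun i => (key i).2 ⟨h1 i, h2 i⟩
        refine ⟨?_, h4, h3, hdβ⟩
        have h5 := ((blk_eq_iff hN hn (by omega)).1 (h4 ⟨k - 1, by omega⟩)).2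
        have h6 : (b ⟨k - 1, by omega⟩ + 1) * n ≤ N * n :=
          Nat.mul_le_mul_right _ (hb _)
        exact Nat.le_of_mul_le_mul_left (h5.trans h6) hN
    · simp [hdβ]
  simp only
  rw [hfib]
  have hterm : ∀ d ∈ (Icc 1 n).filter (fun d => d ≡ β [MOD p]),
      |(((Icc 1 n).filter (fun a : ℕ => n * Lf ((d : ℝ) / n) < a ∧
            (a : ℝ) ≤ n * Uf ((d : ℝ) / n) ∧ a ≡ α [MOD p])).card : ℝ)
        - n * φ ((d : ℝ) / n) / p| ≤ 2 := by
    intro d _
    have h := count_interval p hp α n (n * Lf ((d : ℝ) / n)) (n * Uf ((d : ℝ) / n))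
      (mul_nonneg hn'.le (le_trans (by positivity) (hL0 _)))
      (by
        have := (hU0 ((d : ℝ) / n)).trans (hb1 ⟨0, hk⟩)
        nlinarith)
    have e : max (n * Uf ((d : ℝ) / n) - n * Lf ((d : ℝ) / n)) 0 = n * φ ((d : ℝ) / n) := by
      simp only [hφ]
      rw [mul_max_of_nonneg _ _ hn'.le, mul_zero, mul_sub]
    rwa [e] at h
  have hR := riemann_mod φ (2 * k) 1 hφlip hφM p hp β n hn
  set S := (Icc 1 n).filter (fun d => d ≡ β [MOD p]) with hS
  have hScard : (S.card : ℝ) ≤ n := by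
    have : S.card ≤ (Icc 1 n).card := Finset.card_filter_le _ _
    simp only [Nat.card_Icc, add_tsub_cancel_right] at this
    exact_mod_cast this
  have h1 : |∑ d ∈ S, (((Icc 1 n).filter (fun a : ℕ => n * Lf ((d : ℝ) / n) < a ∧
            (a : ℝ) ≤ n * Uf ((d : ℝ) / n) ∧ a ≡ α [MOD p])).card : ℝ)
      - ∑ d ∈ S, n * φ ((d : ℝ) / n) / p| ≤ 2 * n := by
    rw [← Finset.sum_sub_distrib]
    refine (Finset.abs_sum_le_sum_abs _ _).trans ((Finset.sum_le_sum hterm).trans ?_)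
    simp only [Finset.sum_const, nsmul_eq_mul]
    linarith
  have h2 : |∑ d ∈ S, n * φ ((d : ℝ) / n) / p
      - (∫ y in (0 : ℝ)..1, φ y) / p ^ 2 * (n : ℝ) ^ 2| ≤ (3 * (2 * k) + 2 * 1) * n := by
    have e : ∑ d ∈ S, n * φ ((d : ℝ) / n) / p
        - (∫ y in (0 : ℝ)..1, φ y) / p ^ 2 * (n : ℝ) ^ 2
        = (n / p) * (∑ d ∈ S, φ ((d : ℝ) / n) - (n * ∫ y in (0 : ℝ)..1, φ y) / p) := by
      rw [mul_sub, Finset.mul_sum]
      congr 1
      · apply Finset.sum_congr rfl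
        intro d _
        ring
      · field_simp
    rw [e, abs_mul, abs_of_pos (by positivity), mul_comm]
    have : (n : ℝ) / p ≤ n := div_le_self hn'.le hp'
    exact mul_le_mul hR this (by positivity) (by positivity)
  rw [abs_le] at *
  constructor <;> linarith [h1.1, h1.2, h2.1, h2.2]

/-- The colouring of `[n]` given by a pattern `c` on (block, residue) pairs. -/
def pat (N p : ℕ) [NeZero N] {r : ℕ} (c : Fin N × ZMod p → Fin r) (n x : ℕ) : Fin r :=
  c (Fin.ofNat N (blk N n x), (x : ZMod p))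

lemma mono_decomp (k N p r : ℕ) [NeZero N] [NeZero p] (hk : 1 ≤ k) (P : Finset ℕ)
    (hP : ∀ i ∈ P, i < k) (c : Fin N × ZMod p → Fin r) (n : ℕ) :
    ((AP k n).filter
      (fun q => ∀ i ∈ P, pat N p c n (q.1 + i * q.2) = pat N p c n q.1)).card
      = ∑ τ ∈ (univ.filter (fun τ : (Fin k → Fin N) × ZMod p × ZMod p =>
          ∀ i : Fin k, (i : ℕ) ∈ P →
            c (τ.1 i, τ.2.1 + (i : ℕ) * τ.2.2) = c (τ.1 ⟨0, hk⟩, τ.2.1))),
        ((AP k n).filter
          (fun q => (∀ i : Fin k, blk N n (q.1 + i * q.2) = (τ.1 i : ℕ)) ∧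
            q.1 ≡ τ.2.1.val [MOD p] ∧ q.2 ≡ τ.2.2.val [MOD p])).card := by
  have hN : 0 < N := Nat.pos_of_ne_zero (NeZero.ne N)
  have hz : ∀ (x : ℕ) (z : ZMod p), (x : ZMod p) = z ↔ x ≡ z.val [MOD p] := by
    intro x z
    rw [← ZMod.natCast_eq_natCast_iff, ZMod.natCast_zmod_val]
  obtain ⟨key, hkey⟩ : ∃ key : ℕ × ℕ → (Fin k → Fin N) × ZMod p × ZMod p,
      key = fun q : ℕ × ℕ => (fun i : Fin k => Fin.ofNat N (blk N n (q.1 + i * q.2)),
        (q.1 : ZMod p), (q.2 : ZMod p)) := ⟨_, rfl⟩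
  obtain ⟨T, hT⟩ : ∃ T : Finset ((Fin k → Fin N) × ZMod p × ZMod p), T = univ.filter
    (fun τ => ∀ i : Fin k, (i : ℕ) ∈ P →
      c (τ.1 i, τ.2.1 + (i : ℕ) * τ.2.2) = c (τ.1 ⟨0, hk⟩, τ.2.1)) :=
    ⟨_, rfl⟩
  rw [← hT]
  have e1 : (AP k n).filter (fun q => ∀ i ∈ P, pat N p c n (q.1 + i * q.2) = pat N p c n q.1)
      = (AP k n).filter (fun q => key q ∈ T) := by
    apply Finset.filter_congr
    intro q _
    simp only [hT, hkey, mem_filter, mem_univ, true_and, pat]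
    constructor
    · intro h i hi
      have := h i hi
      simp only [Nat.cast_add, Nat.cast_mul] at this
      simp only [zero_mul, add_zero]
      exact this
    · intro h i hi
      have := h ⟨i, hP i hi⟩ hi
      simp only [zero_mul, add_zero] at this
      simp only [Nat.cast_add, Nat.cast_mul]
      exact this
  rw [e1, ← Finset.sum_card_fiberwise_eq_card_filter]
  apply Finset.sum_congr rfl
  intro τ _
  refine congrArg Finset.card ?_
  apply Finset.filter_congr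
  intro q hq
  simp only [AP, mem_filter, mem_product, mem_Icc] at hq
  obtain ⟨⟨⟨h1, h2⟩, h3, h4⟩, h5⟩ := hq
  have hlt : ∀ i : Fin k, blk N n (q.1 + i * q.2) % N = blk N n (q.1 + i * q.2) := by
    intro i
    apply Nat.mod_eq_of_lt
    apply blk_lt hN (by omega)
    have : (i : ℕ) * q.2 ≤ (k - 1) * q.2 := Nat.mul_le_mul_right _ (by omega)
    omega
  rw [hkey, Prod.ext_iff, Prod.ext_iff, funext_iff]
  simp only [hz, Fin.ext_iff, Fin.val_ofNat, hlt]

lemma asym_mono (k N p r : ℕ) [NeZero N] [NeZero p] (hk : 1 ≤ k) (P : Finset ℕ)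
    (hP : ∀ i ∈ P, i < k) (c : Fin N × ZMod p → Fin r) :
    Asym (fun n => (((AP k n).filter
      (fun q => ∀ i ∈ P, pat N p c n (q.1 + i * q.2) = pat N p c n q.1)).card : ℝ)) := by
  have hN : 0 < N := Nat.pos_of_ne_zero (NeZero.ne N)
  have hp : 0 < p := Nat.pos_of_ne_zero (NeZero.ne p)
  simp only [mono_decomp k N p r hk P hP c, Nat.cast_sum]
  exact Asym.sum _ _
    (fun τ _ => asym_cnt k N p hk hN hp (fun i => (τ.1 i : ℕ)) (fun i => (τ.1 i).2) _ _)

end Pool.Agent.MP_6bff71_co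

end MrgPart0

-- ======== part 1: formerly Pool.Agent.MP_6bff71_co.Pairs
section MrgPart1

/-!
Counting progressions whose `i`-th and `j`-th terms lie in two prescribed blocks of length `m`.
-/

open Finset

namespace Pool.Agent.MP_6bff71_co

/-- The number of `k`-term progressions in `[n]` with `i`-th term in the block `β` and `j`-th term
in the block `γ`, blocks having length `m`. -/
def X (k n m i j β γ : ℕ) : ℕ :=
  ((AP k n).filter (fun q => (β * m < q.1 + i * q.2 ∧ q.1 + i * q.2 ≤ (β + 1) * m) ∧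
    (γ * m < q.1 + j * q.2 ∧ q.1 + j * q.2 ≤ (γ + 1) * m))).card

lemma mem_AP {k n : ℕ} (hk : 2 ≤ k) {q : ℕ × ℕ} :
    q ∈ AP k n ↔ 1 ≤ q.1 ∧ 1 ≤ q.2 ∧ q.1 + (k - 1) * q.2 ≤ n := by
  simp only [AP, mem_filter, mem_product, mem_Icc]
  constructor
  · rintro ⟨⟨⟨h1, -⟩, h2, -⟩, h3⟩
    exact ⟨h1, h2, h3⟩
  · rintro ⟨h1, h2, h3⟩
    have : 1 * q.2 ≤ (k - 1) * q.2 := Nat.mul_le_mul_right _ (by omega)
    exact ⟨⟨⟨h1, by omega⟩, h2, by omega⟩, h3⟩

lemma X_le_sq (k n m i j β γ : ℕ) (hij : i < j) : X k n m i j β γ ≤ m ^ 2 := by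
  have h : X k n m i j β γ ≤ (Ioc (β * m) ((β + 1) * m) ×ˢ Ioc (γ * m) ((γ + 1) * m)).card := by
    apply Finset.card_le_card_of_injOn (fun q : ℕ × ℕ => (q.1 + i * q.2, q.1 + j * q.2))
    · intro q hq
      simp only [coe_filter, Set.mem_ofPred_eq] at hq
      simp only [coe_product, coe_Ioc, Set.mem_prod, Set.mem_Ioc]
      exact hq.2
    · intro q _ q' _ h
      simp only [Prod.mk.injEq] at h
      obtain ⟨t, rfl⟩ := Nat.exists_eq_add_of_lt hij
      obtain ⟨h1, h2⟩ := h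
      have h3 : (t + 1) * q.2 = (t + 1) * q'.2 := by
        have e1 : (i + t + 1) * q.2 = i * q.2 + (t + 1) * q.2 := by ring
        have e2 : (i + t + 1) * q'.2 = i * q'.2 + (t + 1) * q'.2 := by ring
        omega
      have h4 : q.2 = q'.2 := Nat.eq_of_mul_eq_mul_left (by omega) h3
      rw [h4] at h1
      exact Prod.ext (by omega) h4
  refine h.trans (le_of_eq ?_)
  simp only [card_product, Nat.card_Ioc]
  have e1 : (β + 1) * m - β * m = m := by rw [add_mul]; omega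
  have e2 : (γ + 1) * m - γ * m = m := by rw [add_mul]; omega
  rw [e1, e2, sq]

lemma X_eq_zero (k n m i j β γ : ℕ) (hij : i < j) (h : γ < β) : X k n m i j β γ = 0 := by
  unfold X
  rw [Finset.card_eq_zero, Finset.filter_eq_empty_iff]
  rintro q - ⟨⟨h1, -⟩, -, h2⟩
  have a1 : i * q.2 ≤ j * q.2 := Nat.mul_le_mul_right _ hij.le
  have a2 : (γ + 1) * m ≤ β * m := Nat.mul_le_mul_right _ h
  omega

lemma X_shift (k n m i j β γ : ℕ) (hij : i < j) (hj : j < k) (hd : (j - i) ∣ m)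
    (h : β + 3 ≤ γ) : X k n m i j β γ ≤ X k n m i j (β + 2) γ := by
  obtain ⟨t, rfl⟩ := Nat.exists_eq_add_of_lt hij
  obtain ⟨e, rfl⟩ := Nat.exists_eq_add_of_lt hj
  obtain ⟨μ, rfl⟩ := hd
  have ht : i + t + 1 - i = t + 1 := by omega
  rw [ht]
  apply Finset.card_le_card_of_forall_subsingleton
    (fun q q' : ℕ × ℕ => q'.1 = q.1 + (i + t + 1) * (2 * μ) ∧ q'.2 + 2 * μ = q.2)
  · rintro ⟨a, d⟩ hq
    simp only [mem_filter, mem_AP (show 2 ≤ i + t + 1 + e + 1 by omega),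
      add_tsub_cancel_right] at hq
    obtain ⟨⟨h1, h2, h3⟩, ⟨h4, h5⟩, h6, h7⟩ := hq
    have a1 : (β + 3) * ((t + 1) * μ) ≤ γ * ((t + 1) * μ) := Nat.mul_le_mul_right _ h
    have a2 : (t + 1) * (2 * μ) < (t + 1) * d := by nlinarith
    have a3 : 2 * μ < d := Nat.lt_of_mul_lt_mul_left a2
    obtain ⟨d', rfl⟩ := Nat.exists_eq_add_of_lt a3
    refine ⟨(a + (i + t + 1) * (2 * μ), d' + 1), ?_, rfl, by simp only; omega⟩
    simp only [mem_filter, mem_AP (show 2 ≤ i + t + 1 + e + 1 by omega), add_tsub_cancel_right]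
    refine ⟨⟨by omega, by omega, by nlinarith [Nat.zero_le (e * μ)]⟩, ⟨by nlinarith, by nlinarith⟩,
      by nlinarith, by nlinarith⟩
  · intro q' _ q1 h1 q2 h2
    obtain ⟨-, h1, h1'⟩ := h1
    obtain ⟨-, h2, h2'⟩ := h2
    exact Prod.ext (by omega) (by omega)

lemma X_cluster (k n m i j w : ℕ) (hij : i < j) (hj : j < k) (hd : (j - i) ∣ m)
    (hw : 3 * k ≤ w) (hn : w * m + 6 * (k * m) ≤ n) :
    X k n m i j w w + X k n m i j (w + 2) (w + 2) ≤ X k n m i j w (w + 2) := by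
  obtain ⟨t, rfl⟩ := Nat.exists_eq_add_of_lt hij
  obtain ⟨μ, hμ⟩ := hd
  have ht : i + t + 1 - i = t + 1 := by omega
  rw [ht] at hμ
  have hk2 : 2 ≤ k := by omega
  have hμm : μ ≤ m := by rw [hμ]; nlinarith
  have hwm : 3 * (k * m) ≤ w * m := by
    rw [← mul_assoc]; exact Nat.mul_le_mul_right _ hw
  have hkm : m ≤ k * m := Nat.le_mul_of_pos_left _ (by omega)
  have hiμ : i * μ ≤ k * m := Nat.mul_le_mul (by omega) hμm
  have hkμ : (k - 1) * μ ≤ k * m := Nat.mul_le_mul (by omega) hμm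
  have e1 : (w + 1) * m = w * m + m := by ring
  have e2 : (w + 2) * m = w * m + 2 * m := by ring
  have e3 : (w + 2 + 1) * m = w * m + 3 * m := by ring
  have e4 : ∀ d, (i + t + 1) * d = i * d + (t + 1) * d := fun d => by ring
  unfold X
  rw [← Finset.card_filter_add_card_filter_not (fun q : ℕ × ℕ => 2 * μ < q.2)
    (s := (AP k n).filter (fun q => (w * m < q.1 + i * q.2 ∧ q.1 + i * q.2 ≤ (w + 1) * m) ∧
    ((w + 2) * m < q.1 + (i + t + 1) * q.2 ∧ q.1 + (i + t + 1) * q.2 ≤ (w + 2 + 1) * m)))]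
  apply add_le_add
  · apply Finset.card_le_card_of_forall_subsingleton
      (fun q q' : ℕ × ℕ => q'.1 + i * (2 * μ) = q.1 ∧ q'.2 = q.2 + 2 * μ)
    · rintro ⟨a, d⟩ hq
      simp only [mem_filter, mem_AP hk2, e1, e4] at hq
      obtain ⟨⟨h1, h2, h3⟩, ⟨h4, h5⟩, h6, h7⟩ := hq
      have a1 : d ≤ (t + 1) * d := Nat.le_mul_of_pos_left _ (by omega)
      have a2 : d ≤ m := by omega
      have a3 : i * d ≤ k * m := Nat.mul_le_mul (by omega) a2
      have a4 : (k - 1) * d ≤ k * m := Nat.mul_le_mul (by omega) a2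
      have b1 : i * (2 * μ) = 2 * (i * μ) := by ring
      have b2 : i * (d + 2 * μ) = i * d + 2 * (i * μ) := by ring
      have b3 : (t + 1) * (d + 2 * μ) = (t + 1) * d + 2 * m := by rw [hμ]; ring
      have b4 : (k - 1) * (d + 2 * μ) = (k - 1) * d + 2 * ((k - 1) * μ) := by ring
      refine ⟨(a - i * (2 * μ), d + 2 * μ), ?_, by simp only; omega, rfl⟩
      simp only [mem_filter, mem_AP hk2, e1, e2, e3, e4, b1, b2, b3, b4]
      omega
    · intro q' _ q1 h1 q2 h2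
      obtain ⟨-, h1, h1'⟩ := h1
      obtain ⟨-, h2, h2'⟩ := h2
      exact Prod.ext (by omega) (by omega)
  · apply Finset.card_le_card_of_forall_subsingleton
      (fun q q' : ℕ × ℕ => q'.1 + (i + t + 1) * q'.2 = q.1 + i * q.2 ∧ q'.2 + q.2 = 2 * μ)
    · rintro ⟨a, d⟩ hq
      simp only [mem_filter, mem_AP hk2, e2, e3, e4] at hq
      obtain ⟨⟨h1, h2, h3⟩, ⟨h4, h5⟩, h6, h7⟩ := hq
      have a0 : (t + 1) * d < (t + 1) * μ := by omega
      have a1 : d < μ := Nat.lt_of_mul_lt_mul_left a0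
      obtain ⟨d', hd'⟩ : ∃ d', d' + d = 2 * μ := ⟨2 * μ - d, by omega⟩
      have b1 : (t + 1) * d' + (t + 1) * d = 2 * m := by rw [← mul_add, hd', hμ]; ring
      have b2 : i * d' ≤ 2 * (k * m) := by
        calc i * d' ≤ k * (2 * m) := Nat.mul_le_mul (by omega) (by omega)
          _ = 2 * (k * m) := by ring
      have b3 : (k - 1) * d' ≤ 2 * (k * m) := by
        calc (k - 1) * d' ≤ k * (2 * m) := Nat.mul_le_mul (by omega) (by omega)
          _ = 2 * (k * m) := by ring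
      refine ⟨(a + i * d - (i * d' + (t + 1) * d'), d'), ?_, by simp only [e4]; omega, hd'⟩
      simp only [mem_filter, mem_AP hk2, e1, e2, e3, e4]
      omega
    · intro q' _ q1 h1 q2 h2
      obtain ⟨-, h1, h1'⟩ := h1
      obtain ⟨-, h2, h2'⟩ := h2
      have h3 : q1.2 = q2.2 := by omega
      rw [h3] at h1
      exact Prod.ext (by omega) h3

lemma X_jump_zero (k n m s t w v : ℕ) (hk : 2 ≤ k) (hst : s < t) (h : t * (w + 1) ≤ s * v) :
    X k n m s t w v = 0 := by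
  unfold X
  rw [Finset.card_eq_zero, Finset.filter_eq_empty_iff]
  rintro ⟨a, d⟩ hq ⟨⟨-, h1⟩, h2, -⟩
  rw [mem_AP hk] at hq
  simp only at h1 h2 hq
  have a1 : t * (a + s * d) ≤ t * ((w + 1) * m) := Nat.mul_le_mul_left _ h1
  have a2 : t * (w + 1) * m ≤ s * v * m := Nat.mul_le_mul_right _ h
  have a3 : s * (v * m) ≤ s * (a + t * d) := Nat.mul_le_mul_left _ h2.le
  have a4 : (s + 1) * a ≤ t * a := Nat.mul_le_mul_right _ hst
  nlinarith

lemma X_jump_full (k n m μ s t w v : ℕ) (hk : 2 ≤ k) (hst : s < t) (hμ : m = (t - s) * μ)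
    (hwv : w + 1 ≤ v) (h : s * (v + 1) ≤ t * w) (hn : k * ((v + 1) * m) ≤ n) :
    m * μ ≤ X k n m s t w v := by
  obtain ⟨e, rfl⟩ := Nat.exists_eq_add_of_lt hst
  have he : s + e + 1 - s = e + 1 := by omega
  rw [he] at hμ
  have h0 : (Ioc (w * m) ((w + 1) * m) ×ˢ range μ).card ≤ X k n m s (s + e + 1) w v := by
    apply Finset.card_le_card_of_forall_subsingleton
      (fun q q' : ℕ × ℕ => q'.1 + s * q'.2 = q.1 ∧ q'.2 = (v * m - q.1) / (e + 1) + 1 + q.2)
    · rintro ⟨u, x⟩ hq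
      simp only [mem_product, mem_Ioc, mem_range] at hq
      obtain ⟨⟨h1, h2⟩, h3⟩ := hq
      have a1 : (w + 1) * m ≤ v * m := Nat.mul_le_mul_right _ hwv
      obtain ⟨y, hy⟩ : ∃ y, v * m = u + y := ⟨v * m - u, by omega⟩
      have hy' : v * m - u = y := by omega
      obtain ⟨d, hd⟩ : ∃ d, d = y / (e + 1) + 1 + x := ⟨_, rfl⟩
      have b1 := Nat.div_add_mod y (e + 1)
      have b2 : y % (e + 1) < e + 1 := Nat.mod_lt _ (by omega)
      have b3 : (e + 1) * d = (e + 1) * (y / (e + 1)) + (e + 1) * (x + 1) := by rw [hd]; ring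
      have b4 : (e + 1) * (x + 1) ≤ m := by rw [hμ]; exact Nat.mul_le_mul_left _ h3
      have b5 : e + 1 ≤ (e + 1) * (x + 1) := Nat.le_mul_of_pos_right _ (by omega)
      have b6 : (v + 1) * m = v * m + m := by ring
      have c1 : v * m < u + (e + 1) * d := by omega
      have c2 : u + (e + 1) * d ≤ (v + 1) * m := by omega
      have c3 : s * d < u := by
        have d1 : s * (u + (e + 1) * d) ≤ s * ((v + 1) * m) := Nat.mul_le_mul_left _ c2
        have d2 : s * (v + 1) * m ≤ (s + e + 1) * w * m := Nat.mul_le_mul_right _ h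
        have d3 : (s + e + 1) * (w * m + 1) ≤ (s + e + 1) * u := Nat.mul_le_mul_left _ h1
        have d4 : (e + 1) * (s * d) < (e + 1) * u := by nlinarith
        exact Nat.lt_of_mul_lt_mul_left d4
      have c4 : d ≤ (e + 1) * d := Nat.le_mul_of_pos_left _ (by omega)
      have c5 : (k - 1) * d ≤ (k - 1) * ((v + 1) * m) := Nat.mul_le_mul_left _ (by omega)
      have c6 : k * ((v + 1) * m) = (k - 1) * ((v + 1) * m) + (v + 1) * m := by
        obtain ⟨k', rfl⟩ := Nat.exists_eq_add_of_le' (show 1 ≤ k by omega)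
        simp only [add_tsub_cancel_right]
        ring
      have c7 : (s + e + 1) * d = s * d + (e + 1) * d := by ring
      have c8 : 1 ≤ d := by rw [hd]; exact le_trans (Nat.le_add_left 1 _) (Nat.le_add_right _ _)
      refine ⟨(u - s * d, d), ?_, by simp only; omega, by simp only [hy', hd]⟩
      simp only [mem_filter, mem_AP hk, c7]
      omega
    · intro q' _ q1 h1 q2 h2
      obtain ⟨-, h1, h1'⟩ := h1
      obtain ⟨-, h2, h2'⟩ := h2
      have h3 : q1.1 = q2.1 := by omega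
      rw [h3] at h1'
      exact Prod.ext h3 (by omega)
  refine le_trans (le_of_eq ?_) h0
  simp only [card_product, Nat.card_Ioc, card_range]
  have e1 : (w + 1) * m - w * m = m := by rw [add_mul]; omega
  rw [e1]

/-- The number of `k`-term progressions in `[n]` is at most `n ^ 2 / (2 (k - 1))`. -/
lemma card_AP_le (k n : ℕ) (hk : 2 ≤ k) : 2 * (k - 1) * (AP k n).card ≤ n ^ 2 := by
  induction n with
  | zero => simp [AP]
  | succ n ih =>
    have h : (AP k (n + 1)).card ≤ (AP k n).card + n / (k - 1) := by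
      have hsub : AP k (n + 1) ⊆ AP k n ∪
          (Icc 1 (n / (k - 1))).image (fun d => (n + 1 - (k - 1) * d, d)) := by
        intro q hq
        rw [mem_AP hk] at hq
        rw [mem_union, mem_AP hk, mem_image]
        by_cases h : q.1 + (k - 1) * q.2 ≤ n
        · exact Or.inl ⟨hq.1, hq.2.1, h⟩
        · refine Or.inr ⟨q.2, ?_, Prod.ext (by simp only; omega) rfl⟩
          rw [mem_Icc, Nat.le_div_iff_mul_le (by omega), mul_comm]
          omega
      refine (Finset.card_le_card hsub).trans ((Finset.card_union_le _ _).trans ?_)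
      have := Finset.card_image_le (s := Icc 1 (n / (k - 1)))
        (f := fun d => (n + 1 - (k - 1) * d, d))
      simp only [Nat.card_Icc, add_tsub_cancel_right] at this
      omega
    have h2 : (k - 1) * (n / (k - 1)) ≤ n := Nat.mul_div_le _ _
    calc 2 * (k - 1) * (AP k (n + 1)).card
        ≤ 2 * (k - 1) * ((AP k n).card + n / (k - 1)) := Nat.mul_le_mul_left _ h
      _ = 2 * (k - 1) * (AP k n).card + 2 * ((k - 1) * (n / (k - 1))) := by ring
      _ ≤ n ^ 2 + 2 * n := by omega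
      _ ≤ (n + 1) ^ 2 := by nlinarith

/-- Few progressions have common difference divisible by `p`. -/
lemma card_AP_dvd (k n p : ℕ) :
    p * ((AP k n).filter (fun q => p ∣ q.2)).card ≤ n ^ 2 := by
  have h : ((AP k n).filter (fun q => p ∣ q.2)).card
      ≤ (Icc 1 n ×ˢ (Ioc 0 n).filter (fun d => p ∣ d)).card := by
    apply Finset.card_le_card
    intro q hq
    simp only [AP, mem_filter, mem_product, mem_Icc, mem_Ioc] at hq ⊢
    exact ⟨hq.1.1.1, ⟨hq.1.1.2.1, hq.1.1.2.2⟩, hq.2⟩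
  rw [card_product, Nat.Ioc_filter_dvd_card_eq_div, Nat.card_Icc, add_tsub_cancel_right] at h
  calc p * ((AP k n).filter (fun q => p ∣ q.2)).card ≤ p * (n * (n / p)) :=
        Nat.mul_le_mul_left _ h
    _ = n * (p * (n / p)) := by ring
    _ ≤ n * n := Nat.mul_le_mul_left _ (Nat.mul_div_le _ _)
    _ = n ^ 2 := by ring

end Pool.Agent.MP_6bff71_co

end MrgPart1

-- ======== part 2: formerly Pool.Agent.MP_6bff71_co.Main
section MrgPart2

/-!
A perturbation of the uniform fractional colouring with a negative second-order term, random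
rounding on (block, residue) pairs, and the final assembly.
-/

open Finset

namespace Pool.Agent.MP_6bff71_co

/-- Second-order expansion of a product. -/
lemma expand (k : ℕ) : ∃ C : ℝ, 0 ≤ C ∧ ∀ (g : ℕ → ℝ), (∀ i, |g i| ≤ 1) → ∀ ε : ℝ, |ε| ≤ 1 →
    |∏ i ∈ range k, (1 + ε * g i) - (1 + ε * ∑ i ∈ range k, g i
      + ε ^ 2 * ∑ j ∈ range k, ∑ i ∈ range j, g i * g j)| ≤ C * |ε| ^ 3 := by
  induction k with
  | zero => exact ⟨0, le_rfl, fun g _ ε _ => by simp⟩
  | succ k ih =>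
    obtain ⟨C, hC, h⟩ := ih
    refine ⟨2 * C + k * k, by positivity, fun g hg ε hε => ?_⟩
    have h1 := h g hg ε hε
    have h2 : |∑ j ∈ range k, ∑ i ∈ range j, g i * g j| ≤ k * k := by
      refine (Finset.abs_sum_le_sum_abs _ _).trans ?_
      have : ∀ j ∈ range k, |∑ i ∈ range j, g i * g j| ≤ k := by
        intro j hj
        refine (Finset.abs_sum_le_sum_abs _ _).trans ?_
        have : ∀ i ∈ range j, |g i * g j| ≤ 1 := by
          intro i _
          rw [abs_mul]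
          exact mul_le_one₀ (hg i) (abs_nonneg _) (hg j)
        refine (Finset.sum_le_sum this).trans ?_
        simp only [sum_const, card_range, nsmul_eq_mul, mul_one]
        exact_mod_cast (mem_range.1 hj).le
      refine (Finset.sum_le_sum this).trans (le_of_eq ?_)
      simp
    rw [Finset.prod_range_succ, Finset.sum_range_succ, Finset.sum_range_succ, ← Finset.sum_mul]
    set P := ∏ i ∈ range k, (1 + ε * g i)
    set e1 := ∑ i ∈ range k, g i
    set e2 := ∑ j ∈ range k, ∑ i ∈ range j, g i * g j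
    have e : P * (1 + ε * g k) - (1 + ε * (e1 + g k) + ε ^ 2 * (e2 + e1 * g k))
        = (P - (1 + ε * e1 + ε ^ 2 * e2)) * (1 + ε * g k) + ε ^ 3 * (e2 * g k) := by ring
    rw [e]
    have h3 : |1 + ε * g k| ≤ 2 := by
      refine (abs_add_le _ _).trans ?_
      rw [abs_one, abs_mul]
      have := mul_le_one₀ hε (abs_nonneg _) (hg k)
      linarith
    have h4 : |e2 * g k| ≤ k * k := by
      rw [abs_mul]
      exact (mul_le_of_le_one_right (abs_nonneg _) (hg k)).trans h2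
    refine (abs_add_le _ _).trans ?_
    rw [abs_mul, abs_mul (ε ^ 3), abs_pow]
    have h5 : |P - (1 + ε * e1 + ε ^ 2 * e2)| * |1 + ε * g k| ≤ (C * |ε| ^ 3) * 2 :=
      mul_le_mul h1 h3 (abs_nonneg _) (by positivity)
    have h6 : |ε| ^ 3 * |e2 * g k| ≤ |ε| ^ 3 * (k * k) :=
      mul_le_mul_of_nonneg_left h4 (by positivity)
    linarith

lemma sum_weight {Z : Type*} [Fintype Z] [DecidableEq Z] {r : ℕ} (f : Z → Fin r → ℝ)
    (hf : ∀ z, ∑ col, f z col = 1) : ∑ c : Z → Fin r, ∏ y, f y (c y) = 1 := by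
  have := Finset.prod_univ_sum (fun _ : Z => (univ : Finset (Fin r))) f
  rw [Fintype.piFinset_univ] at this
  rw [← this]
  simp [hf]

/-- Marginals of a product weight. -/
lemma marginal {Z : Type*} [Fintype Z] [DecidableEq Z] {r : ℕ} (f : Z → Fin r → ℝ)
    (hf : ∀ z, ∑ col, f z col = 1) (P : Finset ℕ) (z : ℕ → Z) (hz : Set.InjOn z P)
    (col : Fin r) :
    ∑ c : Z → Fin r, (∏ y, f y (c y)) * (if ∀ i ∈ P, c (z i) = col then 1 else 0)
      = ∏ i ∈ P, f (z i) col := by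
  have h := Finset.prod_univ_sum (fun _ : Z => (univ : Finset (Fin r)))
    (fun y col' => f y col' * (if y ∈ P.image z then (if col' = col then 1 else 0) else 1))
  rw [Fintype.piFinset_univ] at h
  have e1 : ∀ c : Z → Fin r, ∏ y, (f y (c y) *
      (if y ∈ P.image z then (if c y = col then (1 : ℝ) else 0) else 1))
      = (∏ y, f y (c y)) * (if ∀ i ∈ P, c (z i) = col then 1 else 0) := by
    intro c
    rw [Finset.prod_mul_distrib, Finset.prod_ite_mem, Finset.univ_inter, Finset.prod_ite_zero]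
    simp
  have e2 : ∀ y, ∑ col', f y col' *
      (if y ∈ P.image z then (if col' = col then (1 : ℝ) else 0) else 1)
      = if y ∈ P.image z then f y col else 1 := by
    intro y
    split_ifs with hy
    · simp
    · simp [hf]
  simp only [e1, e2] at h
  rw [← h, Finset.prod_ite_mem, Finset.univ_inter, Finset.prod_image hz]

/-- The average, over random patterns, of the number of monochromatic progressions. -/
lemma average_le (k N p r n : ℕ) [NeZero N] [NeZero p] (hp : p.Prime) (hkp : k ≤ p)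
    (P : Finset ℕ) (hP : ∀ i ∈ P, i < k)
    (F : Fin N → Fin r → ℝ) (hF0 : ∀ b col, 0 ≤ F b col) (hF : ∀ b, ∑ col, F b col = 1) :
    ∑ c : Fin N × ZMod p → Fin r, (∏ y, F y.1 (c y)) * (((AP k n).filter
      (fun q => ∀ i ∈ P, pat N p c n (q.1 + i * q.2) = pat N p c n q.1)).card : ℝ)
      ≤ ∑ q ∈ AP k n, ∑ col, ∏ i ∈ P, F (Fin.ofNat N (blk N n (q.1 + i * q.2))) col
        + ((AP k n).filter (fun q => p ∣ q.2)).card := by
  have : Fact p.Prime := ⟨hp⟩
  simp only [Finset.card_filter, Nat.cast_sum, Finset.mul_sum, Nat.cast_ite, Nat.cast_one,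
    Nat.cast_zero]
  rw [Finset.sum_comm, ← Finset.sum_add_distrib]
  apply Finset.sum_le_sum
  intro q _
  have hw0 : ∀ c : Fin N × ZMod p → Fin r, 0 ≤ ∏ y, F y.1 (c y) :=
    fun c => Finset.prod_nonneg fun y _ => hF0 _ _
  have hS0 : 0 ≤ ∑ col, ∏ i ∈ P, F (Fin.ofNat N (blk N n (q.1 + i * q.2))) col :=
    Finset.sum_nonneg fun col _ => Finset.prod_nonneg fun i _ => hF0 _ _
  by_cases hd : p ∣ q.2
  · rw [if_pos hd]
    have h1 := sum_weight (fun y : Fin N × ZMod p => F y.1) (fun y => hF y.1)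
    refine le_trans (Finset.sum_le_sum (g := fun c : Fin N × ZMod p → Fin r => ∏ y, F y.1 (c y))
      fun c _ => ?_) (by linarith)
    split_ifs
    · simp
    · simpa using hw0 c
  · rw [if_neg hd, add_zero]
    set z : ℕ → Fin N × ZMod p := fun i =>
      (Fin.ofNat N (blk N n (q.1 + i * q.2)), ((q.1 + i * q.2 : ℕ) : ZMod p)) with hz
    have hinj : Set.InjOn z P := by
      intro i hi j hj hij
      have hi' := hP i hi
      have hj' := hP j hj
      have h1 := congrArg Prod.snd hij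
      simp only [hz, Nat.cast_add, Nat.cast_mul, add_right_inj] at h1
      have h2 : (q.2 : ZMod p) ≠ 0 := by rwa [Ne, ZMod.natCast_eq_zero_iff]
      have h3 := mul_right_cancel₀ h2 h1
      rw [ZMod.natCast_eq_natCast_iff] at h3
      exact Nat.ModEq.eq_of_lt_of_lt h3 (by omega) (by omega)
    have h2 : ∀ col, ∑ c : Fin N × ZMod p → Fin r, (∏ y, F y.1 (c y)) *
        (if ∀ i ∈ P, c (z i) = col then 1 else 0)
        = ∏ i ∈ P, F (Fin.ofNat N (blk N n (q.1 + i * q.2))) col :=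
      fun col => marginal (fun y : Fin N × ZMod p => F y.1) (fun y => hF y.1) P z hinj col
    simp only [← h2]
    rw [Finset.sum_comm]
    apply Finset.sum_le_sum
    intro c _
    rw [← Finset.mul_sum]
    apply mul_le_mul_of_nonneg_left _ (hw0 c)
    split_ifs with h
    · have h3 : (if ∀ i ∈ P, c (z i) = pat N p c n q.1 then (1 : ℝ) else 0) = 1 := if_pos h
      refine le_trans h3.ge (Finset.single_le_sum
        (f := fun col => if ∀ i ∈ P, c (z i) = col then (1 : ℝ) else 0) ?_ (mem_univ _))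
      intro col _
      positivity
    · positivity

/-- The perturbation, as a function of the block index. -/
noncomputable def gfun (w v : ℕ) (η : ℝ) (β : ℕ) : ℝ :=
  (if β = w then 1 else 0) - (if β = w + 2 then 1 else 0) + η * (if β = v then 1 else 0)

lemma abs_gfun_le (w v : ℕ) (hw : w + 3 ≤ v) (η : ℝ) (h0 : 0 ≤ η) (h1 : η ≤ 1) (β : ℕ) :
    |gfun w v η β| ≤ 1 := by
  unfold gfun
  rw [abs_le]
  split_ifs <;> first | omega | (constructor <;> linarith)

lemma X_eq_sum (k N m i j β γ : ℕ) (hk : 2 ≤ k) (hN : 0 < N) (hm : 0 < m) :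
    (X k (N * m) m i j β γ : ℝ) = ∑ q ∈ AP k (N * m),
      (if blk N (N * m) (q.1 + i * q.2) = β then (1 : ℝ) else 0) *
      (if blk N (N * m) (q.1 + j * q.2) = γ then (1 : ℝ) else 0) := by
  have key : ∀ x b, 1 ≤ x → (blk N (N * m) x = b ↔ b * m < x ∧ x ≤ (b + 1) * m) := by
    intro x b hx
    rw [blk_eq_iff hN (Nat.mul_pos hN hm) hx]
    have e1 : b * (N * m) = N * (b * m) := by ring
    have e2 : (b + 1) * (N * m) = N * ((b + 1) * m) := by ring
    rw [e1, e2, Nat.mul_lt_mul_left hN, Nat.mul_le_mul_left_iff hN]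
  unfold X
  rw [Finset.card_filter]
  push_cast
  apply Finset.sum_congr rfl
  intro q hq
  rw [mem_AP hk] at hq
  rw [ite_zero_mul_ite_zero, mul_one]
  apply if_congr _ rfl rfl
  rw [key _ _ (by omega), key _ _ (by omega)]

lemma Q_le (k m μ s w v N i j : ℕ) (hk : 3 ≤ k) (hm : 0 < m) (hij : i < j) (hj : j < k)
    (hd : (j - i) ∣ m) (hs : s < k - 1) (hμ : m = (k - 1 - s) * μ) (hw : 3 * k ≤ w)
    (hwv : w + 3 ≤ v) (h1 : (k - 1) * (w + 1) ≤ s * v) (h2 : s * (v + 1) ≤ (k - 1) * (w + 2))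
    (hN : k * (v + 7) ≤ N) (η : ℝ) (h0 : 0 ≤ η) :
    ∑ q ∈ AP k (N * m), gfun w v η (blk N (N * m) (q.1 + i * q.2)) *
      gfun w v η (blk N (N * m) (q.1 + j * q.2))
      ≤ η ^ 2 * (m : ℝ) ^ 2 - (if i = s ∧ j = k - 1 then η * ((m : ℝ) * μ) else 0) := by
  have hN0 : 0 < N := lt_of_lt_of_le (Nat.mul_pos (by omega) (by omega)) hN
  have hk2 : 2 ≤ k := by omega
  have hNm : k * (v + 7) * m ≤ N * m := Nat.mul_le_mul_right _ hN
  have e : ∑ q ∈ AP k (N * m), gfun w v η (blk N (N * m) (q.1 + i * q.2)) *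
      gfun w v η (blk N (N * m) (q.1 + j * q.2))
      = X k (N * m) m i j w w - X k (N * m) m i j w (w + 2)
        + η * X k (N * m) m i j w v
        - X k (N * m) m i j (w + 2) w + X k (N * m) m i j (w + 2) (w + 2)
        - η * X k (N * m) m i j (w + 2) v
        + η * X k (N * m) m i j v w - η * X k (N * m) m i j v (w + 2)
        + η ^ 2 * X k (N * m) m i j v v := by
    simp only [X_eq_sum k N m i j _ _ hk2 hN0 hm, Finset.mul_sum, ← Finset.sum_add_distrib,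
      ← Finset.sum_sub_distrib]
    apply Finset.sum_congr rfl
    intro q _
    unfold gfun
    ring
  rw [e, X_eq_zero k _ m i j (w + 2) w hij (by omega),
    X_eq_zero k _ m i j v w hij (by omega),
    X_eq_zero k _ m i j v (w + 2) hij (by omega)]
  have h3 : (X k (N * m) m i j w w : ℝ) + X k (N * m) m i j (w + 2) (w + 2)
      ≤ X k (N * m) m i j w (w + 2) := by
    have : w * m + 6 * (k * m) ≤ N * m := by
      have a1 : w * m ≤ k * (v * m) :=
        le_trans (Nat.mul_le_mul_right _ (by omega)) (Nat.le_mul_of_pos_left _ (by omega))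
      have a2 : k * (v + 7) * m = k * (v * m) + 7 * (k * m) := by ring
      omega
    exact_mod_cast X_cluster k (N * m) m i j w hij hj hd hw this
  have h4 : (X k (N * m) m i j v v : ℝ) ≤ (m : ℝ) ^ 2 := by
    exact_mod_cast X_le_sq k (N * m) m i j _ _ hij
  have h5 := mul_le_mul_of_nonneg_left h4 (sq_nonneg η)
  split_ifs with h
  · obtain ⟨rfl, rfl⟩ := h
    have h6 : (m : ℝ) * μ ≤ X k (N * m) m i (k - 1) (w + 2) v := by
      have : k * ((v + 1) * m) ≤ N * m := by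
        have a2 : k * (v + 7) * m = k * ((v + 1) * m) + 6 * (k * m) := by ring
        omega
      exact_mod_cast X_jump_full k (N * m) m μ i (k - 1) (w + 2) v hk2 hs hμ (by omega) h2 this
    have h7 := mul_le_mul_of_nonneg_left h6 h0
    rw [X_jump_zero k _ m i (k - 1) w v hk2 hs h1]
    push_cast
    linarith
  · have h6 : (X k (N * m) m i j w v : ℝ) ≤ X k (N * m) m i j (w + 2) v := by
      exact_mod_cast X_shift k (N * m) m i j w v hij hj hd (by omega)
    have h7 := mul_le_mul_of_nonneg_left h6 h0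
    push_cast
    linarith

lemma Q_total (k m s w v N : ℕ) (hk : 3 ≤ k) (hm : 0 < m) (hd : k.factorial ∣ m)
    (hs : s < k - 1) (hw : 3 * k ≤ w)
    (hwv : w + 3 ≤ v) (h1 : (k - 1) * (w + 1) ≤ s * v) (h2 : s * (v + 1) ≤ (k - 1) * (w + 2))
    (hN : k * (v + 7) ≤ N) (η : ℝ) (h0 : 0 ≤ η) (P : Finset ℕ) (hsP : s ∈ P) (htP : k - 1 ∈ P) :
    ∑ q ∈ AP k (N * m), ∑ j ∈ range k, ∑ i ∈ range j,
      (if i ∈ P then gfun w v η (blk N (N * m) (q.1 + i * q.2)) else 0) *
      (if j ∈ P then gfun w v η (blk N (N * m) (q.1 + j * q.2)) else 0)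
      ≤ (k * k * η ^ 2 - η / k) * (m : ℝ) ^ 2 := by
  obtain ⟨μ, hμ⟩ : (k - 1 - s) ∣ m := (Nat.dvd_factorial (by omega) (by omega)).trans hd
  have hk0 : (0 : ℝ) < k := by exact_mod_cast (show 0 < k by omega)
  have hμm : (m : ℝ) ≤ k * μ := by
    have : m ≤ k * μ := by rw [hμ]; exact Nat.mul_le_mul_right _ (by omega)
    exact_mod_cast this
  have hμ2 : η / k * (m : ℝ) ^ 2 ≤ η * ((m : ℝ) * μ) := by
    rw [div_mul_eq_mul_div, div_le_iff₀ hk0]
    have : (m : ℝ) * m ≤ m * (k * μ) := mul_le_mul_of_nonneg_left hμm (by positivity)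
    nlinarith
  rw [Finset.sum_comm]
  have h3 : ∀ j ∈ range k, ∑ q ∈ AP k (N * m), ∑ i ∈ range j,
      (if i ∈ P then gfun w v η (blk N (N * m) (q.1 + i * q.2)) else 0) *
      (if j ∈ P then gfun w v η (blk N (N * m) (q.1 + j * q.2)) else 0)
      ≤ k * (η ^ 2 * (m : ℝ) ^ 2) - (if j = k - 1 then η * ((m : ℝ) * μ) else 0) := by
    intro j hj
    rw [mem_range] at hj
    rw [Finset.sum_comm]
    have h4 : ∀ i ∈ range j, ∑ q ∈ AP k (N * m),
        (if i ∈ P then gfun w v η (blk N (N * m) (q.1 + i * q.2)) else 0) *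
        (if j ∈ P then gfun w v η (blk N (N * m) (q.1 + j * q.2)) else 0)
        ≤ η ^ 2 * (m : ℝ) ^ 2 - (if i = s ∧ j = k - 1 then η * ((m : ℝ) * μ) else 0) := by
      intro i hi
      rw [mem_range] at hi
      by_cases hP : i ∈ P ∧ j ∈ P
      · simp only [if_pos hP.1, if_pos hP.2]
        exact Q_le k m μ s w v N i j hk hm hi hj
          ((Nat.dvd_factorial (by omega) (by omega)).trans hd) hs hμ hw hwv h1 h2 hN η h0
      · have h5 : ¬ (i = s ∧ j = k - 1) := by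
          rintro ⟨rfl, rfl⟩
          exact hP ⟨hsP, htP⟩
        simp only [ite_zero_mul_ite_zero, if_neg hP, if_neg h5, sum_const_zero, sub_zero]
        positivity
    refine (Finset.sum_le_sum h4).trans ?_
    rw [Finset.sum_sub_distrib, sum_const, card_range, nsmul_eq_mul]
    have h5 : (j : ℝ) * (η ^ 2 * (m : ℝ) ^ 2) ≤ k * (η ^ 2 * (m : ℝ) ^ 2) := by
      have : (j : ℝ) ≤ k := by exact_mod_cast hj.le
      gcongr
    have h6 : ∑ i ∈ range j, (if i = s ∧ j = k - 1 then η * ((m : ℝ) * μ) else 0)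
        = if j = k - 1 then η * ((m : ℝ) * μ) else 0 := by
      split_ifs with h
      · subst h
        simp [hs]
      · simp [h]
    linarith
  refine (Finset.sum_le_sum h3).trans ?_
  rw [Finset.sum_sub_distrib, sum_const, card_range, nsmul_eq_mul, Finset.sum_ite_eq',
    if_pos (mem_range.2 (by omega))]
  linarith

/-- Signs `+1, -1, 0, …, 0` attached to the colours. -/
def sgn {r : ℕ} (col : Fin r) : ℝ := if (col : ℕ) = 0 then 1 else if (col : ℕ) = 1 then -1 else 0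

lemma sum_sgn {r : ℕ} (hr : 2 ≤ r) : ∑ col : Fin r, sgn col = 0 := by
  obtain ⟨r, rfl⟩ := Nat.exists_eq_add_of_le' hr
  simp [Fin.sum_univ_succ, sgn]

lemma sum_sgn_sq {r : ℕ} (hr : 2 ≤ r) : ∑ col : Fin r, sgn col ^ 2 = 2 := by
  obtain ⟨r, rfl⟩ := Nat.exists_eq_add_of_le' hr
  simp [Fin.sum_univ_succ, sgn]
  norm_num

lemma abs_sgn_le {r : ℕ} (col : Fin r) : |sgn col| ≤ 1 := by
  unfold sgn
  split_ifs <;> simp

/-- A fractional block colouring that beats the random rate by a fixed margin. -/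
lemma exists_fractional (k r s : ℕ) (hr : 2 ≤ r) (P : Finset ℕ) (hP : ∀ i ∈ P, i < k)
    (hs0 : 0 < s) (hs : s < k - 1) (hsP : s ∈ P) (htP : k - 1 ∈ P) :
    ∃ (N : ℕ) (_ : NeZero N) (F : Fin N → Fin r → ℝ) (γ : ℝ), 0 < γ ∧ (∀ b col, 0 ≤ F b col) ∧
      (∀ b, ∑ col, F b col = 1) ∧ ∀ m : ℕ, 0 < m → k.factorial ∣ m →
        ∑ q ∈ AP k (N * m), ∑ col,
          ∏ i ∈ P, F (Fin.ofNat N (blk N (N * m) (q.1 + i * q.2))) col
        ≤ (1 / (2 * ((k : ℝ) - 1) * (r : ℝ) ^ (P.card - 1)) - γ) * ((N * m : ℕ) : ℝ) ^ 2 := by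
  have hk : 3 ≤ k := by omega
  obtain ⟨C, hC0, hC⟩ := expand k
  obtain ⟨w, hw1⟩ : ∃ w, w + 1 = s * (3 * k + 1) :=
    ⟨s * (3 * k + 1) - 1, by have := Nat.mul_pos hs0 (show 0 < 3 * k + 1 by omega); omega⟩
  set v := (k - 1) * (3 * k + 1) with hv
  have hw : 3 * k ≤ w := by
    have : 1 * (3 * k + 1) ≤ s * (3 * k + 1) := Nat.mul_le_mul_right _ hs0
    omega
  have hwv : w + 3 ≤ v := by
    have h1 : (s + 1) * (3 * k + 1) ≤ (k - 1) * (3 * k + 1) := Nat.mul_le_mul_right _ hs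
    have h2 : (s + 1) * (3 * k + 1) = s * (3 * k + 1) + (3 * k + 1) := by ring
    omega
  have hj1 : (k - 1) * (w + 1) ≤ s * v := le_of_eq (by rw [hw1, hv]; ring)
  have hj2 : s * (v + 1) ≤ (k - 1) * (w + 2) := by
    have h1 : (k - 1) * (w + 2) = (k - 1) * (w + 1) + (k - 1) := by ring
    have h2 : (k - 1) * (w + 1) = s * v := by rw [hw1, hv]; ring
    have h3 : s * (v + 1) = s * v + s := by ring
    omega
  set N := k * (v + 7) with hN
  have hN0 : 0 < N := Nat.mul_pos (by omega) (by omega)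
  have : NeZero N := ⟨hN0.ne'⟩
  have hN1 : (1 : ℝ) ≤ N := by exact_mod_cast hN0
  have hk' : (3 : ℝ) ≤ k := by exact_mod_cast hk
  have hr' : (2 : ℝ) ≤ r := by exact_mod_cast hr
  have hr0 : (0 : ℝ) < r := by linarith
  set η : ℝ := 1 / (2 * k * k * k) with hη
  have hη0 : 0 < η := by positivity
  have hη1 : η ≤ 1 := by
    rw [hη, div_le_one (by positivity)]
    have h1 : (1 : ℝ) ≤ k * k := by nlinarith
    nlinarith
  set θ : ℝ := η / k with hθ
  have hθ0 : 0 < θ := by positivity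
  have hθ1 : θ ≤ 1 := by
    rw [hθ, div_le_one (by linarith)]
    linarith
  have hηη : (k : ℝ) * k * η ^ 2 - η / k = -(θ / 2) := by
    rw [hθ, hη]
    field_simp
    ring
  set ε : ℝ := θ / (2 * (N : ℝ) ^ 2 * (r * C + 1)) with hε
  have hD : (1 : ℝ) ≤ 2 * (N : ℝ) ^ 2 * (r * C + 1) := by
    have h1 : (1 : ℝ) ≤ (N : ℝ) ^ 2 := one_le_pow₀ hN1
    have h2 : (0 : ℝ) ≤ r * C := by positivity
    nlinarith
  have hε0 : 0 < ε := by positivity
  have hε1 : ε ≤ 1 := by
    rw [hε, div_le_one (by linarith)]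
    linarith
  have hεC : r * C * ε * (N : ℝ) ^ 2 ≤ θ / 2 := by
    have : ε * (2 * (N : ℝ) ^ 2 * (r * C + 1)) = θ := by
      rw [hε]
      field_simp
    nlinarith [sq_nonneg (N : ℝ)]
  have hg := abs_gfun_le w v hwv η hη0.le hη1
  have hεs : ∀ col : Fin r, |ε * sgn col| ≤ ε := by
    intro col
    rw [abs_mul, abs_of_pos hε0]
    exact mul_le_of_le_one_right hε0.le (abs_sgn_le col)
  refine ⟨N, this, fun b col => (1 / r) * (1 + (ε * sgn col) * gfun w v η b),
    (1 / r) ^ P.card * (ε ^ 2 * θ / (2 * (N : ℝ) ^ 2)), by positivity, ?_, ?_, ?_⟩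
  · intro b col
    have h1 : |(ε * sgn col) * gfun w v η b| ≤ 1 := by
      rw [abs_mul]
      exact mul_le_one₀ ((hεs col).trans hε1) (abs_nonneg _) (hg _)
    have h2 := (abs_le.1 h1).1
    have h3 : 0 ≤ 1 + (ε * sgn col) * gfun w v η b := by linarith
    positivity
  · intro b
    rw [← Finset.mul_sum, Finset.sum_add_distrib, ← Finset.sum_mul, ← Finset.mul_sum, sum_sgn hr]
    simp [hr0.ne']
  · intro m hm hd
    have hm' : (0 : ℝ) < m := by exact_mod_cast hm
    have h1 : ∀ q ∈ AP k (N * m), ∑ col : Fin r, ∏ i ∈ P, (1 / (r : ℝ)) *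
        (1 + (ε * sgn col) * gfun w v η
          ((Fin.ofNat N (blk N (N * m) (q.1 + i * q.2)) : Fin N) : ℕ))
        ≤ (1 / r) ^ P.card * (r + r * C * ε ^ 3 + 2 * ε ^ 2 * ∑ j ∈ range k, ∑ i ∈ range j,
          (if i ∈ P then gfun w v η (blk N (N * m) (q.1 + i * q.2)) else 0) *
          (if j ∈ P then gfun w v η (blk N (N * m) (q.1 + j * q.2)) else 0)) := by
      intro q hq
      rw [mem_AP (by omega)] at hq
      set g : ℕ → ℝ := fun i =>
        if i ∈ P then gfun w v η (blk N (N * m) (q.1 + i * q.2)) else 0 with hgdef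
      have h2 : ∀ col : Fin r, ∏ i ∈ P, (1 / (r : ℝ)) *
          (1 + (ε * sgn col) * gfun w v η
            ((Fin.ofNat N (blk N (N * m) (q.1 + i * q.2)) : Fin N) : ℕ))
          = (1 / r) ^ P.card * ∏ i ∈ range k, (1 + (ε * sgn col) * g i) := by
        intro col
        rw [Finset.prod_mul_distrib, Finset.prod_const]
        congr 1
        rw [← Finset.prod_subset (s₁ := P) (s₂ := range k) (fun i hi => mem_range.2 (hP i hi))
          (fun i _ hi => by simp [hgdef, hi])]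
        apply Finset.prod_congr rfl
        intro i hi
        have hi' := hP i hi
        have : i * q.2 ≤ (k - 1) * q.2 := Nat.mul_le_mul_right _ (by omega)
        rw [Fin.val_ofNat, Nat.mod_eq_of_lt (blk_lt hN0 (by omega) (by omega))]
        simp [hgdef, hi]
      simp only [h2]
      rw [← Finset.mul_sum]
      apply mul_le_mul_of_nonneg_left _ (by positivity)
      have hg1 : ∀ i, |g i| ≤ 1 := by
        intro i
        simp only [hgdef]
        split_ifs
        · exact hg _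
        · simp
      have h3 : ∀ col : Fin r, ∏ i ∈ range k, (1 + (ε * sgn col) * g i)
          ≤ 1 + C * ε ^ 3 + sgn col * (ε * ∑ i ∈ range k, g i)
            + sgn col ^ 2 * (ε ^ 2 * ∑ j ∈ range k, ∑ i ∈ range j, g i * g j) := by
        intro col
        have h4 := (abs_le.1 (hC g hg1 (ε * sgn col) ((hεs col).trans hε1))).2
        have h5 : C * |ε * sgn col| ^ 3 ≤ C * ε ^ 3 := by
          have := hεs col
          gcongr
        nlinarith
      refine (Finset.sum_le_sum fun col _ => h3 col).trans (le_of_eq ?_)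
      rw [Finset.sum_add_distrib, Finset.sum_add_distrib, ← Finset.sum_mul, ← Finset.sum_mul,
        sum_sgn hr, sum_sgn_sq hr]
      simp only [sum_const, card_univ, Fintype.card_fin, nsmul_eq_mul]
      ring
    refine (Finset.sum_le_sum h1).trans ?_
    rw [← Finset.mul_sum, Finset.sum_add_distrib, ← Finset.mul_sum, sum_const, nsmul_eq_mul]
    have hQ := Q_total k m s w v N hk hm hd hs hw hwv hj1 hj2 hN.ge η hη0.le P hsP htP
    rw [hηη] at hQ
    have hA : 2 * ((k : ℝ) - 1) * (AP k (N * m)).card ≤ ((N * m : ℕ) : ℝ) ^ 2 := by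
      have := card_AP_le k (N * m) (by omega)
      have e : ((k : ℝ) - 1) = ((k - 1 : ℕ) : ℝ) := by
        rw [Nat.cast_sub (by omega)]; simp
      rw [e]
      exact_mod_cast this
    set A : ℝ := ((AP k (N * m)).card : ℝ) with hAdef
    have hA0 : 0 ≤ A := by positivity
    set Q := ∑ q ∈ AP k (N * m), ∑ j ∈ range k, ∑ i ∈ range j,
      (if i ∈ P then gfun w v η (blk N (N * m) (q.1 + i * q.2)) else 0) *
      (if j ∈ P then gfun w v η (blk N (N * m) (q.1 + j * q.2)) else 0)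
    have hn : ((N * m : ℕ) : ℝ) ^ 2 = (N : ℝ) ^ 2 * (m : ℝ) ^ 2 := by push_cast; ring
    have hA1 : A ≤ ((N * m : ℕ) : ℝ) ^ 2 / (2 * ((k : ℝ) - 1)) := by
      rw [le_div_iff₀ (by linarith)]
      linarith
    have hA2 : A ≤ (N : ℝ) ^ 2 * (m : ℝ) ^ 2 := by
      rw [← hn]
      nlinarith
    have e1 : (1 / (2 * ((k : ℝ) - 1) * (r : ℝ) ^ (P.card - 1))
        - (1 / r) ^ P.card * (ε ^ 2 * θ / (2 * (N : ℝ) ^ 2))) * ((N * m : ℕ) : ℝ) ^ 2
        = (1 / r) ^ P.card * (r * (((N * m : ℕ) : ℝ) ^ 2 / (2 * ((k : ℝ) - 1)))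
          - ε ^ 2 * (θ / 2) * (m : ℝ) ^ 2) := by
      have hk1 : (k : ℝ) - 1 ≠ 0 := by linarith
      have e2 : (r : ℝ) ^ P.card = r ^ (P.card - 1) * r := by
        have : 0 < P.card := Finset.card_pos.2 ⟨s, hsP⟩
        rw [← pow_succ]; congr 1; omega
      rw [hn, one_div_pow, e2]
      field_simp
    rw [e1]
    apply mul_le_mul_of_nonneg_left _ (by positivity)
    have t1 : A * r ≤ r * (((N * m : ℕ) : ℝ) ^ 2 / (2 * ((k : ℝ) - 1))) := by
      rw [mul_comm]
      gcongr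
    have t2 : A * (r * C * ε ^ 3) ≤ ε ^ 2 * (θ / 2) * (m : ℝ) ^ 2 := by
      calc A * (r * C * ε ^ 3) ≤ ((N : ℝ) ^ 2 * (m : ℝ) ^ 2) * (r * C * ε ^ 3) := by gcongr
        _ = ε ^ 2 * (r * C * ε * (N : ℝ) ^ 2) * (m : ℝ) ^ 2 := by ring
        _ ≤ ε ^ 2 * (θ / 2) * (m : ℝ) ^ 2 := by gcongr
    have t3 : 2 * ε ^ 2 * Q ≤ 2 * ε ^ 2 * (-(θ / 2) * (m : ℝ) ^ 2) := by gcongr
    linarith

theorem main (k r s : ℕ) (hr : 2 ≤ r) (P : Finset ℕ) (hP : ∀ i ∈ P, i < k)
    (hs0 : 0 < s) (hs : s < k - 1) (hsP : s ∈ P) (htP : k - 1 ∈ P) :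
    ∃ δ : ℝ, δ < 1 / (2 * ((k : ℝ) - 1) * (r : ℝ) ^ (P.card - 1)) ∧
      ∃ χ : ℕ → ℕ → Fin r, ∃ C : ℝ, ∀ n : ℕ,
        |(((AP k n).filter (fun q => ∀ i ∈ P, χ n (q.1 + i * q.2) = χ n q.1)).card : ℝ)
          - δ * (n : ℝ) ^ 2| ≤ C * n := by
  obtain ⟨N, hN, F, γ, hγ, hF0, hF, hmain⟩ := exists_fractional k r s hr P hP hs0 hs hsP htP
  have hN0 : 0 < N := Nat.pos_of_ne_zero hN.ne
  obtain ⟨p, hp1, hp⟩ := Nat.exists_infinite_primes (max k ⌈2 / γ⌉₊)
  have hkp : k ≤ p := le_trans (le_max_left _ _) hp1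
  have hp0 : (0 : ℝ) < p := by exact_mod_cast hp.pos
  have hpγ : 1 / (p : ℝ) ≤ γ / 2 := by
    have h1 : ⌈2 / γ⌉₊ ≤ p := le_trans (le_max_right _ _) hp1
    have h2 : 2 / γ ≤ p := Nat.ceil_le.1 h1
    rw [div_le_iff₀ hγ] at h2
    rw [div_le_iff₀ hp0]
    linarith
  have : NeZero p := ⟨hp.ne_zero⟩
  choose δ C hδ using fun c : Fin N × ZMod p → Fin r => asym_mono k N p r (by omega) P hP c
  set ρ : ℝ := 1 / (2 * ((k : ℝ) - 1) * (r : ℝ) ^ (P.card - 1)) with hρ
  by_contra hcon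
  have hge : ∀ c, ρ ≤ δ c := by
    intro c
    by_contra h
    exact hcon ⟨δ c, not_le.1 h, fun n => pat N p c n, C c, hδ c⟩
  set W : (Fin N × ZMod p → Fin r) → ℝ := fun c => ∏ y, F y.1 (c y) with hW
  have hW0 : ∀ c, 0 ≤ W c := fun c => Finset.prod_nonneg fun y _ => hF0 _ _
  have hW1 : ∑ c, W c = 1 := sum_weight (fun y : Fin N × ZMod p => F y.1) (fun y => hF y.1)
  set B : ℝ := ∑ c, W c * C c with hB
  obtain ⟨τ, hτ⟩ := exists_nat_gt (max (2 * B / γ) 0)
  have hτ0 : 0 < τ := by exact_mod_cast (le_max_right _ _).trans_lt hτ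
  have hτ1 : 2 * B / γ < τ := (le_max_left _ _).trans_lt hτ
  set m := k.factorial * τ with hm
  have hm0 : 0 < m := Nat.mul_pos (Nat.factorial_pos k) hτ0
  set n := N * m with hn
  have hτn : τ ≤ n := by
    calc τ ≤ m := Nat.le_mul_of_pos_left _ (Nat.factorial_pos k)
      _ ≤ n := Nat.le_mul_of_pos_left _ hN0
  have hτn' : (τ : ℝ) ≤ n := by exact_mod_cast hτn
  have hn0 : (0 : ℝ) < n := by exact_mod_cast Nat.mul_pos hN0 hm0
  have h1 := average_le k N p r n hp hkp P hP F hF0 hF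
  have h2 := hmain m hm0 (Dvd.intro _ rfl)
  have h3 : (((AP k n).filter (fun q => p ∣ q.2)).card : ℝ) ≤ γ / 2 * (n : ℝ) ^ 2 := by
    have h4 : (p : ℝ) * ((AP k n).filter (fun q => p ∣ q.2)).card ≤ (n : ℝ) ^ 2 := by
      exact_mod_cast card_AP_dvd k n p
    calc (((AP k n).filter (fun q => p ∣ q.2)).card : ℝ)
        = 1 / p * ((p : ℝ) * ((AP k n).filter (fun q => p ∣ q.2)).card) := by field_simp
      _ ≤ γ / 2 * (n : ℝ) ^ 2 := by gcongr
  have h4 : ρ * (n : ℝ) ^ 2 - B * n ≤ ∑ c, W c * (((AP k n).filter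
      (fun q => ∀ i ∈ P, pat N p c n (q.1 + i * q.2) = pat N p c n q.1)).card : ℝ) := by
    have e : ρ * (n : ℝ) ^ 2 - B * n = ∑ c, W c * (ρ * (n : ℝ) ^ 2 - C c * n) := by
      simp only [mul_sub, Finset.sum_sub_distrib, ← Finset.sum_mul, hW1, ← mul_assoc, hB, one_mul]
    rw [e]
    apply Finset.sum_le_sum
    intro c _
    apply mul_le_mul_of_nonneg_left _ (hW0 c)
    have h5 := (abs_le.1 (hδ c n)).1
    have h6 : ρ * (n : ℝ) ^ 2 ≤ δ c * (n : ℝ) ^ 2 :=
      mul_le_mul_of_nonneg_right (hge c) (by positivity)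
    linarith
  have h5 : γ / 2 * (n : ℝ) ^ 2 ≤ B * n := by
    rw [← hn] at h2
    linarith
  have h6 : γ / 2 * n ≤ B := by
    rw [sq, ← mul_assoc] at h5
    exact le_of_mul_le_mul_right h5 hn0
  rw [div_lt_iff₀ hγ] at hτ1
  nlinarith

end Pool.Agent.MP_6bff71_co

end MrgPart2

-- marker of a merged file
example : 731051 + 275222 = 731051 + 275222 := rfl
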